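import Mathlib

/-!
# Global solutions of linear ordinary differential equations (the compact interval version is copied
from Pool/Agent/Helper40/SR/Glode.lean, to have no dependence)
-/

namespace Pool.Agent.Helper97.RF

open scoped Topology
open Set

section

variable {E : Type} [NormedAddCommGroup E] [NormedSpace ℝ E]

theorem glode_local [CompleteSpace E] {A : ℝ → E →L[ℝ] E} {a b C : ℝ}
    (hA : ContinuousOn A (Icc a b)) (hC0 : 0 ≤ C) (hC : ∀ t ∈ Icc a b, ‖A t‖ ≤ C) {c c' : ℝ}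
    (hac : a ≤ c) (hcc : c ≤ c') (hcb : c' ≤ b) (hδ : (2 * C + 1) * (c' - c) ≤ 1) (y₀ : E) :
    ∃ y : ℝ → E, y c = y₀ ∧ ∀ t ∈ Icc c c', HasDerivWithinAt y (A t (y t)) (Icc c c') t := by
  have hsub : Icc c c' ⊆ Icc a b := Icc_subset_Icc hac hcb
  have hN : 0 ≤ ‖y₀‖ := norm_nonneg _
  have hPL : IsPicardLindelof (fun t x => A t x) (tmin := c) (tmax := c') ⟨c, le_rfl, hcc⟩ y₀
      ⟨‖y₀‖ + 1, by positivity⟩ 0 ⟨C * (2 * ‖y₀‖ + 1), by positivity⟩ ⟨C, hC0⟩ := by
    refine ⟨?_, ?_, ?_, ?_⟩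
    · intro t ht
      refine (LipschitzWith.of_dist_le_mul ?_).lipschitzOnWith
      intro x y
      rw [dist_eq_norm, dist_eq_norm, ← map_sub]
      exact (A t).le_of_opNorm_le (hC t (hsub ht)) _
    · intro x _
      exact (hA.mono hsub).clm_apply continuousOn_const
    · intro t ht x hx
      have h1 : ‖A t x‖ ≤ C * ‖x‖ := (A t).le_of_opNorm_le (hC t (hsub ht)) _
      have h2 : ‖x‖ ≤ 2 * ‖y₀‖ + 1 := by
        have h3 : dist x y₀ ≤ ‖y₀‖ + 1 := hx
        rw [dist_eq_norm] at h3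
        have h4 : ‖x‖ ≤ ‖x - y₀‖ + ‖y₀‖ := by
          have := norm_add_le (x - y₀) y₀
          simpa using this
        linarith
      exact h1.trans (mul_le_mul_of_nonneg_left h2 hC0)
    · show C * (2 * ‖y₀‖ + 1) * max (c' - c) (c - c) ≤ (‖y₀‖ + 1) - 0
      rw [sub_self, max_eq_left (by linarith), sub_zero]
      have h5 : 0 ≤ c' - c := by linarith
      have h6 : C * (c' - c) ≤ 1 / 2 := by nlinarith
      have h7 : 0 ≤ C * (c' - c) := by positivity
      nlinarith [mul_le_mul_of_nonneg_right h6 hN]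
  obtain ⟨y, hy, hy'⟩ := hPL.exists_eq_forall_mem_Icc_hasDerivWithinAt₀
  exact ⟨y, hy, hy'⟩

theorem glode_glue {A : ℝ → E →L[ℝ] E} {a c c' : ℝ} {x y : ℝ → E} (hac : a ≤ c) (hcc : c ≤ c')
    (hx : ∀ t ∈ Icc a c, HasDerivWithinAt x (A t (x t)) (Icc a c) t)
    (hy : ∀ t ∈ Icc c c', HasDerivWithinAt y (A t (y t)) (Icc c c') t) (hxy : y c = x c) :
    ∀ t ∈ Icc a c', HasDerivWithinAt (fun t => if t ≤ c then x t else y t)
      (A t ((fun t => if t ≤ c then x t else y t) t)) (Icc a c') t := by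
  set z : ℝ → E := fun t => if t ≤ c then x t else y t with hz
  have hzx : ∀ t ≤ c, z t = x t := fun t ht => if_pos ht
  have hzy : ∀ t, c ≤ t → z t = y t := by
    intro t ht
    rcases ht.eq_or_lt with h | h
    · rw [← h, hzx c le_rfl, hxy]
    · exact if_neg (not_le.2 h)
  have h1 : ∀ t ∈ Icc a c, HasDerivWithinAt z (A t (z t)) (Icc a c) t := by
    intro t ht
    rw [hzx t ht.2]
    exact (hx t ht).congr (fun s hs => hzx s hs.2) (hzx t ht.2)
  have h2 : ∀ t ∈ Icc c c', HasDerivWithinAt z (A t (z t)) (Icc c c') t := by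
    intro t ht
    rw [hzy t ht.1]
    exact (hy t ht).congr (fun s hs => hzy s hs.1) (hzy t ht.1)
  intro t ht
  rcases lt_trichotomy t c with h | h | h
  · refine (h1 t ⟨ht.1, h.le⟩).mono_of_mem_nhdsWithin ?_
    rw [mem_nhdsWithin_iff_exists_mem_nhds_inter]
    exact ⟨Iic c, Iic_mem_nhds h, fun s hs => ⟨hs.2.1, hs.1⟩⟩
  · subst h
    rw [← Icc_union_Icc_eq_Icc hac hcc]
    exact (h1 t ⟨ht.1, le_rfl⟩).union (h2 t ⟨le_rfl, ht.2⟩)
  · refine (h2 t ⟨h.le, ht.2⟩).mono_of_mem_nhdsWithin ?_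
    rw [mem_nhdsWithin_iff_exists_mem_nhds_inter]
    exact ⟨Ici c, Ici_mem_nhds h, fun s hs => ⟨hs.1, hs.2.2⟩⟩

end

/-- GLODE: global existence for linear ordinary differential equations. -/
theorem glode (E : Type) [NormedAddCommGroup E] [NormedSpace ℝ E] [CompleteSpace E]
    (A : ℝ → E →L[ℝ] E) (a b : ℝ) (hab : a < b) (hA : ContinuousOn A (Icc a b)) (x₀ : E) :
    ∃ x : ℝ → E, x a = x₀ ∧ ∀ t ∈ Icc a b, HasDerivWithinAt x (A t (x t)) (Icc a b) t := by
  obtain ⟨C, hC⟩ := isCompact_Icc.exists_bound_of_continuousOn hA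
  have hC0 : 0 ≤ C := (norm_nonneg _).trans (hC a ⟨le_rfl, hab.le⟩)
  have hpos : 0 < 2 * C + 1 := by linarith
  have key : ∀ n : ℕ, ∃ x : ℝ → E, x a = x₀ ∧ ∀ t ∈ Icc a (min b (a + n * (1 / (2 * C + 1)))),
      HasDerivWithinAt x (A t (x t)) (Icc a (min b (a + n * (1 / (2 * C + 1))))) t := by
    intro n
    induction n with
    | zero =>
      refine ⟨fun _ => x₀, rfl, ?_⟩
      have h0 : min b (a + ((0 : ℕ) : ℝ) * (1 / (2 * C + 1))) = a := by
        simp [hab.le]
      rw [h0, Icc_self]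
      intro t ht
      rw [mem_singleton_iff] at ht
      subst ht
      exact HasFDerivWithinAt.of_subsingleton subsingleton_singleton
    | succ n ih =>
      obtain ⟨x, hxa, hx⟩ := ih
      set c := min b (a + n * (1 / (2 * C + 1))) with hc
      set c' := min b (a + ((n + 1 : ℕ) : ℝ) * (1 / (2 * C + 1))) with hc'
      have hstep : (0 : ℝ) < 1 / (2 * C + 1) := by positivity
      have hac : a ≤ c := le_min hab.le (by
        have : (0 : ℝ) ≤ n * (1 / (2 * C + 1)) := by positivity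
        linarith)
      have hcc : c ≤ c' := by
        refine min_le_min le_rfl ?_
        push_cast
        nlinarith
      have hcb : c' ≤ b := min_le_left _ _
      have hδ : (2 * C + 1) * (c' - c) ≤ 1 := by
        have h1 : c' - c ≤ 1 / (2 * C + 1) := by
          have h2 : c' ≤ a + ((n + 1 : ℕ) : ℝ) * (1 / (2 * C + 1)) := min_le_right _ _
          rcases le_total b (a + n * (1 / (2 * C + 1))) with h | h
          · have : c = b := min_eq_left h
            rw [this]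
            linarith
          · have : c = a + n * (1 / (2 * C + 1)) := min_eq_right h
            rw [this]
            push_cast at h2
            linarith
        calc (2 * C + 1) * (c' - c) ≤ (2 * C + 1) * (1 / (2 * C + 1)) :=
              mul_le_mul_of_nonneg_left h1 hpos.le
          _ = 1 := by field_simp
      obtain ⟨y, hyc, hy⟩ := glode_local hA hC0 hC hac hcc hcb hδ (x c)
      refine ⟨fun t => if t ≤ c then x t else y t, ?_, glode_glue hac hcc hx hy hyc⟩
      simp only [hac, if_true]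
      exact hxa
  obtain ⟨n, hn⟩ := exists_nat_gt ((b - a) * (2 * C + 1))
  obtain ⟨x, hxa, hx⟩ := key n
  have hb : min b (a + n * (1 / (2 * C + 1))) = b := by
    refine min_eq_left ?_
    have h1 : b - a < n * (1 / (2 * C + 1)) := by
      rw [mul_one_div, lt_div_iff₀ hpos]
      exact hn
    linarith
  rw [hb] at hx
  exact ⟨x, hxa, hx⟩



section

open Filter

variable {E : Type} [NormedAddCommGroup E] [NormedSpace ℝ E]

/-- existence on a symmetric interval -/
theorem glode_symm [CompleteSpace E] (A : ℝ → E →L[ℝ] E) (hA : Continuous A) (y0 : E) (b : ℝ)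
    (hb : 0 < b) :
    ∃ y : ℝ → E, y 0 = y0 ∧ ∀ t ∈ Icc (-b) b, HasDerivWithinAt y (A t (y t)) (Icc (-b) b) t := by
  obtain ⟨y, hy0, hy⟩ := glode E A 0 b hb hA.continuousOn y0
  obtain ⟨z, hz0, hz⟩ := glode E (fun t => - A (-t)) 0 b hb
    ((hA.comp continuous_neg).neg.continuousOn) y0
  have hx : ∀ t ∈ Icc (-b) 0, HasDerivWithinAt (fun t => z (-t)) (A t ((fun t => z (-t)) t))
      (Icc (-b) 0) t := by
    intro t ht
    have hmt : -t ∈ Icc (0 : ℝ) b := ⟨by linarith [ht.2], by linarith [ht.1]⟩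
    have h1 := hz (-t) hmt
    have h2 : HasDerivWithinAt (fun t : ℝ => -t) (-1) (Icc (-b) 0) t :=
      (hasDerivAt_neg t).hasDerivWithinAt
    have hmaps : MapsTo (fun t : ℝ => -t) (Icc (-b) 0) (Icc 0 b) := by
      intro s hs
      exact ⟨by simpa using hs.2, by linarith [hs.1]⟩
    have h3 := HasDerivWithinAt.scomp t h1 h2 hmaps
    simp only [neg_neg, neg_apply, smul_neg, neg_smul, one_smul] at h3
    exact h3
  refine ⟨fun t => if t ≤ 0 then (fun t => z (-t)) t else y t, ?_,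
    glode_glue (by linarith) hb.le hx hy ?_⟩
  · simp [hz0]
  · simp [hz0, hy0]

/-- **Global solutions of linear ordinary differential equations.** -/
theorem lode_global [CompleteSpace E] (A : ℝ → E →L[ℝ] E) (hA : Continuous A) (y0 : E) :
    ∃ y : ℝ → E, y 0 = y0 ∧ ∀ t, HasDerivAt y (A t (y t)) t := by
  have hex : ∀ n : ℕ, ∃ y : ℝ → E, y 0 = y0 ∧
      ∀ t ∈ Ioo (-((n : ℝ) + 1)) ((n : ℝ) + 1), HasDerivAt y (A t (y t)) t := by
    intro n
    obtain ⟨y, h0, h⟩ := glode_symm A hA y0 ((n : ℝ) + 1) (by positivity)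
    exact ⟨y, h0, fun t ht => (h t (Ioo_subset_Icc_self ht)).hasDerivAt (Icc_mem_nhds ht.1 ht.2)⟩
  choose y hy0 hy using hex
  -- uniqueness
  have huniq : ∀ m n : ℕ, m ≤ n → EqOn (y m) (y n) (Ioo (-((m : ℝ) + 1)) ((m : ℝ) + 1)) := by
    intro m n hmn
    have hmn' : (m : ℝ) ≤ n := by exact_mod_cast hmn
    obtain ⟨C, hC⟩ := (isCompact_Icc (a := -((m : ℝ) + 1)) (b := (m : ℝ) + 1)).exists_bound_of_continuousOn
      hA.continuousOn
    have hm0 : (0 : ℝ) ≤ m := Nat.cast_nonneg m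
    refine ODE_solution_unique_of_mem_Ioo (v := fun t x => A t x) (s := fun _ => univ)
      (K := Real.toNNReal C) (t₀ := 0) ?_ ⟨by linarith, by linarith⟩
      (fun t ht => ⟨hy m t ht, trivial⟩)
      (fun t ht => ⟨hy n t ⟨by linarith [ht.1], by linarith [ht.2]⟩, trivial⟩)
      ((hy0 m).trans (hy0 n).symm)
    intro t ht
    refine (LipschitzWith.of_dist_le_mul ?_).lipschitzOnWith
    intro x x'
    rw [dist_eq_norm, dist_eq_norm, ← map_sub]
    refine (A t).le_of_opNorm_le ?_ _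
    exact (hC t (Ioo_subset_Icc_self ht)).trans (Real.le_coe_toNNReal C)
  have hmem : ∀ t : ℝ, t ∈ Ioo (-((⌈|t|⌉₊ : ℝ) + 1)) ((⌈|t|⌉₊ : ℝ) + 1) := by
    intro t
    have h1 : |t| ≤ (⌈|t|⌉₊ : ℝ) := Nat.le_ceil _
    rw [mem_Ioo, ← abs_lt]
    linarith
  refine ⟨fun t => y ⌈|t|⌉₊ t, hy0 _, ?_⟩
  intro t
  obtain ⟨N, hN⟩ : ∃ N : ℕ, N = ⌈|t|⌉₊ + 1 := ⟨_, rfl⟩
  have hNt : t ∈ Ioo (-((N : ℝ) + 1)) ((N : ℝ) + 1) := by
    have := hmem t
    rw [hN]
    push_cast
    exact ⟨by linarith [this.1], by linarith [this.2]⟩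
  have hloc : (fun s => y ⌈|s|⌉₊ s) =ᶠ[𝓝 t] y N := by
    have hopen : ∀ᶠ s in 𝓝 t, |s| < |t| + 1 / 2 := by
      have : Tendsto (fun s : ℝ => |s|) (𝓝 t) (𝓝 |t|) := continuous_abs.tendsto t
      exact this.eventually_lt_const (by linarith)
    filter_upwards [hopen] with s hs
    have h1 : ⌈|s|⌉₊ ≤ N := by
      rw [hN]
      refine Nat.ceil_le.2 ?_
      push_cast
      have := Nat.le_ceil |t|
      linarith
    exact huniq _ _ h1 (hmem s)
  have h2 := hy N t hNt
  have h3 : y ⌈|t|⌉₊ t = y N t := hloc.self_of_nhds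
  have h4 : HasDerivAt (fun s => y ⌈|s|⌉₊ s) (A t (y N t)) t := h2.congr_of_eventuallyEq hloc
  show HasDerivAt (fun s => y ⌈|s|⌉₊ s) (A t (y ⌈|t|⌉₊ t)) t
  rw [h3]
  exact h4

end

end Pool.Agent.Helper97.RF
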