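import Pool.Agent.Helper64.RF.GoalsF

/-! # Packet PEX (MP_c98eff_gt): existence of the parallel frame. -/

open Quaternion

open scoped RealInnerProductSpace

namespace Pool.Agent.Helper97.RF

open Pool.Agent.Helper64.RF

/-- an orthonormal triple of a scalar product on `W` -/
theorem exists_onb (b : W →L[ℝ] W →L[ℝ] ℝ) (symm : ∀ u v, b u v = b v u)
    (pos : ∀ u, u ≠ 0 → 0 < b u u) :
    ∃ e : Fin 3 → W, ∀ i j, b (e i) (e j) = if i = j then 1 else 0 := by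
  let B : LinearMap.BilinForm ℝ W := LinearMap.mk₂ ℝ (fun u v => b u v)
    (by simp) (by simp) (by simp) (by simp)
  have hB : LinearMap.IsSymm B := ⟨fun u v => symm u v⟩
  have : Invertible (2 : ℝ) := invertibleOfNonzero two_ne_zero
  obtain ⟨v, hv⟩ := LinearMap.BilinForm.exists_orthogonal_basis (K := ℝ) (V := W) (B := B) hB
  have h3 : Module.finrank ℝ W = 3 := by simp
  have hne : ∀ i, v i ≠ 0 := fun i => v.ne_zero i
  refine ⟨fun i => (Real.sqrt (b (v (Fin.cast h3.symm i)) (v (Fin.cast h3.symm i))))⁻¹ •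
    v (Fin.cast h3.symm i), ?_⟩
  intro i j
  simp only [map_smul, smul_apply, smul_eq_mul]
  by_cases hij : i = j
  · subst hij
    rw [if_pos rfl]
    have hp := pos _ (hne (Fin.cast h3.symm i))
    set p := b (v (Fin.cast h3.symm i)) (v (Fin.cast h3.symm i)) with hpd
    have h1 : Real.sqrt p * Real.sqrt p = p := Real.mul_self_sqrt hp.le
    have h2 : Real.sqrt p ≠ 0 := (Real.sqrt_pos.2 hp).ne'
    field_simp
    nlinarith [h1]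
  · rw [if_neg hij]
    have hne2 : Fin.cast h3.symm i ≠ Fin.cast h3.symm j := by
      intro h
      exact hij (Fin.cast_injective _ h)
    have h4 : b (v (Fin.cast h3.symm i)) (v (Fin.cast h3.symm j)) = 0 := hv hne2
    rw [h4]
    ring

theorem inner_eq (a b : ℍ[ℝ]) :
    ⟪a, b⟫ = a.re * b.re + (a.imI * b.imI + a.imJ * b.imJ + a.imK * b.imK) := by
  rw [Quaternion.inner_def]
  simp
  ring

/-- the real part as a continuous linear map -/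
noncomputable def reL : ℍ[ℝ] →L[ℝ] ℝ :=
  LinearMap.toContinuousLinearMap
    { toFun := fun q => q.re, map_add' := by intro p q; simp, map_smul' := by intro p q; simp }

@[simp] theorem reL_apply (q : ℍ[ℝ]) : reL q = q.re := rfl

/-- the metric `Gh` as a bilinear form -/
noncomputable def GG (g : ℍ[ℝ] → W →L[ℝ] W →L[ℝ] ℝ) (ξ : W) :
    (W × ℝ) →L[ℝ] (W × ℝ) →L[ℝ] ℝ :=
  ((ContinuousLinearMap.compL ℝ (W × ℝ) W ℝ).flip (ContinuousLinearMap.fst ℝ W ℝ)).comp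
      ((g (X ξ)).comp (ContinuousLinearMap.fst ℝ W ℝ)) +
    (ContinuousLinearMap.mul ℝ ℝ).bilinearComp (ContinuousLinearMap.snd ℝ W ℝ)
      (ContinuousLinearMap.snd ℝ W ℝ)

theorem GG_apply (g : ℍ[ℝ] → W →L[ℝ] W →L[ℝ] ℝ) (ξ : W) (s s' : W × ℝ) :
    GG g ξ s s' = Gh g (X ξ) s s' := by
  simp [GG, Gh]

theorem X_contDiff : ContDiff ℝ (⊤ : ℕ∞) X := by
  have h : ContDiff ℝ (⊤ : ℕ∞) (fun ξ : W => 1 + iotL ξ) := contDiff_const.add iotL.contDiff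
  exact h.mul h

theorem GG_contDiff {g : ℍ[ℝ] → W →L[ℝ] W →L[ℝ] ℝ} (hg : Met g) (hX : ∀ ξ, X ξ ≠ 0) :
    ContDiff ℝ (⊤ : ℕ∞) (GG g) := by
  have h1 : ContDiff ℝ (⊤ : ℕ∞) (fun ξ => g (X ξ)) := by
    rw [contDiff_iff_contDiffAt]
    intro ξ
    exact (hg.smooth.contDiffAt (hX ξ)).comp ξ X_contDiff.contDiffAt
  exact (contDiff_const.clm_comp (h1.clm_comp contDiff_const)).add contDiff_const

/-- the standard basis of the quaternions -/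
def k0 : ℍ[ℝ] := ⟨1, 0, 0, 0⟩
/-- the standard basis of the quaternions -/
def k1 : ℍ[ℝ] := ⟨0, 1, 0, 0⟩
/-- the standard basis of the quaternions -/
def k2 : ℍ[ℝ] := ⟨0, 0, 1, 0⟩
/-- the standard basis of the quaternions -/
def k3 : ℍ[ℝ] := ⟨0, 0, 0, 1⟩

theorem k_dec (q : ℍ[ℝ]) : q = q.re • k0 + q.imI • k1 + q.imJ • k2 + q.imK • k3 := by
  ext <;> simp [k0, k1, k2, k3]

theorem inner_k0 (q : ℍ[ℝ]) : ⟪k0, q⟫ = q.re := by rw [inner_eq]; simp [k0]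
theorem inner_k1 (q : ℍ[ℝ]) : ⟪k1, q⟫ = q.imI := by rw [inner_eq]; simp [k1]
theorem inner_k2 (q : ℍ[ℝ]) : ⟪k2, q⟫ = q.imJ := by rw [inner_eq]; simp [k2]
theorem inner_k3 (q : ℍ[ℝ]) : ⟪k3, q⟫ = q.imK := by rw [inner_eq]; simp [k3]

/-- the inverse frame -/
noncomputable def PiF (g : ℍ[ℝ] → W →L[ℝ] W →L[ℝ] ℝ) (P : W → (ℍ[ℝ] →L[ℝ] (W × ℝ))) (ξ : W) :
    (W × ℝ) →L[ℝ] ℍ[ℝ] :=
  (GG g ξ (P ξ k0)).smulRight k0 + (GG g ξ (P ξ k1)).smulRight k1 +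
    (GG g ξ (P ξ k2)).smulRight k2 + (GG g ξ (P ξ k3)).smulRight k3

theorem PiF_contDiff {g : ℍ[ℝ] → W →L[ℝ] W →L[ℝ] ℝ} {P : W → (ℍ[ℝ] →L[ℝ] (W × ℝ))}
    (hGG : ContDiff ℝ (⊤ : ℕ∞) (GG g)) (hPs : ContDiff ℝ (⊤ : ℕ∞) P) :
    ContDiff ℝ (⊤ : ℕ∞) (PiF g P) := by
  have hk : ∀ q : ℍ[ℝ], ContDiff ℝ (⊤ : ℕ∞) (fun ξ => (GG g ξ (P ξ q)).smulRight q) := by
    intro q
    exact (hGG.clm_apply (hPs.clm_apply contDiff_const)).smulRight contDiff_const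
  exact (((hk k0).add (hk k1)).add (hk k2)).add (hk k3)

theorem PiF_inner {g : ℍ[ℝ] → W →L[ℝ] W →L[ℝ] ℝ} {P : W → (ℍ[ℝ] →L[ℝ] (W × ℝ))} (hg : Met g)
    (ξ : W) (s : W × ℝ) (q : ℍ[ℝ]) : ⟪PiF g P ξ s, q⟫ = Gh g (X ξ) s (P ξ q) := by
  have hsymm : Gh g (X ξ) s (P ξ q) = Gh g (X ξ) (P ξ q) s := by
    simp only [Gh]
    rw [hg.symm, mul_comm]
  have h1 : PiF g P ξ s = GG g ξ (P ξ k0) s • k0 + GG g ξ (P ξ k1) s • k1 +
      GG g ξ (P ξ k2) s • k2 + GG g ξ (P ξ k3) s • k3 := rfl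
  have h2 : GG g ξ (P ξ q) s = q.re * GG g ξ (P ξ k0) s + q.imI * GG g ξ (P ξ k1) s +
      q.imJ * GG g ξ (P ξ k2) s + q.imK * GG g ξ (P ξ k3) s := by
    conv_lhs => rw [k_dec q]
    simp only [map_add, map_smul, add_apply, smul_apply, smul_eq_mul]
  rw [hsymm, ← GG_apply, h2, h1]
  simp only [inner_add_left, real_inner_smul_left, inner_k0, inner_k1, inner_k2, inner_k3]
  ring

theorem exists_P0 (b : W →L[ℝ] W →L[ℝ] ℝ) (symm : ∀ u v, b u v = b v u)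
    (pos : ∀ u, u ≠ 0 → 0 < b u u) :
    ∃ P0 : ℍ[ℝ] →L[ℝ] (W × ℝ), ∀ q q',
      b (P0 q).1 (P0 q').1 + (P0 q).2 * (P0 q').2 = ⟪q, q'⟫ := by
  obtain ⟨e, he⟩ := exists_onb b symm pos
  let L : W →L[ℝ] W := ∑ i,
    (ContinuousLinearMap.proj (R := ℝ) (φ := fun _ : Fin 3 => ℝ) i).smulRight (e i)
  have hL : ∀ v, L v = v 0 • e 0 + v 1 • e 1 + v 2 • e 2 := by
    intro v
    simp [L, Fin.sum_univ_three]
  refine ⟨(L.comp imL).prod reL, ?_⟩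
  intro q q'
  have h00 := he 0 0
  have h01 := he 0 1
  have h02 := he 0 2
  have h10 := he 1 0
  have h11 := he 1 1
  have h12 := he 1 2
  have h20 := he 2 0
  have h21 := he 2 1
  have h22 := he 2 2
  simp at h00 h01 h02 h10 h11 h12 h20 h21 h22
  rw [inner_eq]
  simp only [ContinuousLinearMap.prod_apply, ContinuousLinearMap.comp_apply, imL_apply, hL,
    reL_apply, map_add, map_smul, add_apply, smul_apply, smul_eq_mul,
    h00, h01, h02, h10, h11, h12, h20, h21, h22]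
  simp [Pool.Agent.Helper64.RF.im]
  ring

theorem iso {g : ℍ[ℝ] → W →L[ℝ] W →L[ℝ] ℝ} {Bt : W → W →L[ℝ] ((W × ℝ) →L[ℝ] (W × ℝ))}
    {P : W → (ℍ[ℝ] →L[ℝ] (W × ℝ))}
    (hGG : ContDiff ℝ (⊤ : ℕ∞) (GG g)) (hPs : ContDiff ℝ (⊤ : ℕ∞) P)
    (hPr : ∀ ξ, fderiv ℝ P ξ ξ = - (Bt ξ ξ).comp (P ξ))
    (hB : ∀ ξ a s s', fderiv ℝ (fun ζ => Gh g (X ζ) s s') ξ a =
      Gh g (X ξ) (Bt ξ a s) s' + Gh g (X ξ) s (Bt ξ a s'))
    (h0 : ∀ q q', Gh g (X 0) (P 0 q) (P 0 q') = ⟪q, q'⟫) :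
    ∀ ξ q q', Gh g (X ξ) (P ξ q) (P ξ q') = ⟪q, q'⟫ := by
  intro ξ q q'
  have hGd : ∀ ζ, HasFDerivAt (GG g) (fderiv ℝ (GG g) ζ) ζ := fun ζ =>
    ((hGG.differentiable (by simp)) ζ).hasFDerivAt
  have hPd : ∀ ζ, HasFDerivAt P (fderiv ℝ P ζ) ζ := fun ζ =>
    ((hPs.differentiable (by simp)) ζ).hasFDerivAt
  have hq : ∀ (p : ℍ[ℝ]) ζ, HasFDerivAt (fun ζ => P ζ p) ((fderiv ℝ P ζ).flip p) ζ := by
    intro p ζ
    have := (hPd ζ).clm_apply (hasFDerivAt_const p ζ)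
    simpa using this
  have hGs : ∀ (s s' : W × ℝ) ζ a, fderiv ℝ (fun ζ => Gh g (X ζ) s s') ζ a =
      fderiv ℝ (GG g) ζ a s s' := by
    intro s s' ζ a
    have h1 : (fun ζ => Gh g (X ζ) s s') = fun ζ => GG g ζ s s' := by
      funext ζ
      rw [GG_apply]
    rw [h1]
    have h2 := ((hGd ζ).clm_apply (hasFDerivAt_const s ζ)).clm_apply (hasFDerivAt_const s' ζ)
    rw [h2.fderiv]
    simp
  let F : W → ℝ := fun ζ => GG g ζ (P ζ q) (P ζ q')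
  have hF : ∀ ζ, ∃ D : W →L[ℝ] ℝ, HasFDerivAt F D ζ ∧ D ζ = 0 := by
    intro ζ
    have h2 := ((hGd ζ).clm_apply (hq q ζ)).clm_apply (hq q' ζ)
    refine ⟨_, h2, ?_⟩
    have h3 := hB ζ ζ (P ζ q) (P ζ q')
    rw [hGs, ← GG_apply, ← GG_apply] at h3
    simp only [add_apply, ContinuousLinearMap.comp_apply, ContinuousLinearMap.flip_apply,
      hPr, neg_apply, map_neg, h3]
    ring
  have hφ : ∀ r : ℝ, ∃ d : ℝ, HasDerivAt (fun r : ℝ => F (r • ξ)) d r ∧ (r ≠ 0 → d = 0) := by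
    intro r
    obtain ⟨D, hD, hD0⟩ := hF (r • ξ)
    have h1 : HasDerivAt (fun r : ℝ => r • ξ) ξ r := by
      simpa using (hasDerivAt_id r).smul_const ξ
    have h2 : HasDerivAt (F ∘ fun r : ℝ => r • ξ) (D ξ) r := hD.comp_hasDerivAt r h1
    refine ⟨D ξ, h2, fun hr => ?_⟩
    rw [map_smul, smul_eq_mul] at hD0
    exact (mul_eq_zero.1 hD0).resolve_left hr
  choose d hd hd0 using hφ
  obtain ⟨c, hc, hcd⟩ := exists_hasDerivAt_eq_slope (fun r : ℝ => F (r • ξ)) d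
    (zero_lt_one) (fun r _ => (hd r).continuousAt.continuousWithinAt) (fun r _ => hd r)
  rw [hd0 c hc.1.ne'] at hcd
  have h4 : F ((1 : ℝ) • ξ) = F ((0 : ℝ) • ξ) := by
    have : (F ((1 : ℝ) • ξ) - F ((0 : ℝ) • ξ)) / (1 - 0) = 0 := hcd.symm
    rw [sub_zero, div_one] at this
    linarith
  rw [one_smul, zero_smul] at h4
  have h5 : GG g ξ (P ξ q) (P ξ q') = GG g 0 (P 0 q) (P 0 q') := h4
  rw [GG_apply, GG_apply, h0] at h5
  exact h5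

theorem pex (cay : CAY) (lsd : LSD) : PEX := by
  intro g G hg hG Bt hBt hB
  obtain ⟨hX0, -⟩ := cay
  obtain ⟨U, hU, hU0, hUr⟩ := lsd (W × ℝ) Bt hBt
  obtain ⟨P0, hP0⟩ := exists_P0 (g (X 0)) (hg.symm _) (hg.pos _ (hX0 0))
  have hGG := GG_contDiff hg hX0
  obtain ⟨P, hP⟩ : ∃ P : W → (ℍ[ℝ] →L[ℝ] (W × ℝ)), P = fun ξ => (U ξ).comp P0 := ⟨_, rfl⟩
  have hPs : ContDiff ℝ (⊤ : ℕ∞) P := by
    rw [hP]
    exact hU.clm_comp contDiff_const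
  have hPr : ∀ ξ, fderiv ℝ P ξ ξ = - (Bt ξ ξ).comp (P ξ) := by
    intro ξ
    have h1 : HasFDerivAt U (fderiv ℝ U ξ) ξ := ((hU.differentiable (by simp)) ξ).hasFDerivAt
    have h2 := h1.clm_comp (hasFDerivAt_const P0 ξ)
    rw [hP, h2.fderiv]
    ext q
    · simp [hUr]
    · simp [hUr]
  have hP00 : ∀ q q', Gh g (X 0) (P 0 q) (P 0 q') = ⟪q, q'⟫ := by
    intro q q'
    rw [hP]
    simp only [hU0, ContinuousLinearMap.id_comp]
    exact hP0 q q'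
  have hiso := iso hGG hPs hPr hB hP00
  have hinj : ∀ ξ, Function.Injective (P ξ) := by
    intro ξ
    rw [injective_iff_map_eq_zero]
    intro q hq
    have h1 := hiso ξ q q
    rw [hq] at h1
    have h2 : Gh g (X ξ) (0 : W × ℝ) 0 = 0 := by simp [Gh]
    rw [h2] at h1
    exact inner_self_eq_zero.1 h1.symm
  have hsurj : ∀ ξ, Function.Surjective (P ξ) := by
    intro ξ
    have hfr : Module.finrank ℝ ℍ[ℝ] = Module.finrank ℝ (W × ℝ) := by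
      rw [Quaternion.finrank_eq_four]
      simp
    have := (LinearMap.injective_iff_surjective_of_finrank_eq_finrank
      (f := ((P ξ : ℍ[ℝ] →L[ℝ] (W × ℝ)) : ℍ[ℝ] →ₗ[ℝ] (W × ℝ))) hfr).1 (hinj ξ)
    exact this
  obtain ⟨Pi, hPi⟩ : ∃ Pi : W → ((W × ℝ) →L[ℝ] ℍ[ℝ]), Pi = PiF g P := ⟨_, rfl⟩
  have hPis : ContDiff ℝ (⊤ : ℕ∞) Pi := by
    rw [hPi]
    exact PiF_contDiff hGG hPs
  have hin : ∀ ξ s q, ⟪Pi ξ s, q⟫ = Gh g (X ξ) s (P ξ q) := by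
    intro ξ s q
    rw [hPi]
    exact PiF_inner hg ξ s q
  have hPiP : ∀ ξ, (Pi ξ).comp (P ξ) = ContinuousLinearMap.id ℝ ℍ[ℝ] := by
    intro ξ
    refine ContinuousLinearMap.ext fun q => ?_
    refine ext_inner_right ℝ fun q' => ?_
    rw [ContinuousLinearMap.comp_apply, hin, hiso]
    rfl
  refine ⟨P, Pi, hPs, hPis, ?_, hPiP, hPr, hiso, hin⟩
  intro ξ
  refine ContinuousLinearMap.ext fun s => ?_
  obtain ⟨q, rfl⟩ := hsurj ξ s
  have h1 : Pi ξ (P ξ q) = q := by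
    have := congrArg (fun (T : ℍ[ℝ] →L[ℝ] ℍ[ℝ]) => T q) (hPiP ξ)
    exact this
  rw [ContinuousLinearMap.comp_apply, h1]
  rfl

end Pool.Agent.Helper97.RF
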