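import Pool.Agent.Helper47.RF.CoreGoals

/-! # Packet RF-C7 (MP_c98eff_gt): derivative along a curve of unit quaternions. -/

namespace Pool.Agent.Helper97.RF

open Finset Pool.Agent.Helper47.RF

/-- an `Sm` function is differentiable away from the origin -/
theorem sm_differentiableAt {f : HH → ℝ} (hf : Sm f) {x : HH} (hx : x ≠ 0) :
    DifferentiableAt ℝ f x := by
  have h1 : ContDiffAt ℝ ((⊤ : ℕ∞) : WithTop ℕ∞) f x :=
    hf.cd.contDiffAt (isOpen_compl_singleton.mem_nhds hx)
  exact h1.differentiableAt (by simp)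

/-- Euler: a `0`-homogeneous function has vanishing radial derivative -/
theorem euler {f : HH → ℝ} (hf : Sm f) {x : HH} (hx : x ≠ 0) : fderiv ℝ f x x = 0 := by
  have h1 : HasFDerivAt f (fderiv ℝ f x) x := (sm_differentiableAt hf hx).hasFDerivAt
  have h2 : HasDerivAt (fun s : ℝ => x + s • x) x 0 := by
    have := ((hasDerivAt_id (0 : ℝ)).smul_const x).const_add x
    simpa using this
  have h3 : HasDerivAt (fun s : ℝ => f (x + s • x)) (fderiv ℝ f x x) 0 := by
    have h1' : HasFDerivAt f (fderiv ℝ f x) (x + (0 : ℝ) • x) := by simpa using h1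
    exact h1'.comp_hasDerivAt 0 h2
  have h4 : HasDerivAt (fun s : ℝ => f (x + s • x)) 0 0 := by
    refine (hasDerivAt_const (0 : ℝ) (f x)).congr_of_eventuallyEq ?_
    filter_upwards [lt_mem_nhds (show (-1 : ℝ) < 0 by norm_num)] with s hs
    have : x + s • x = (1 + s) • x := by rw [add_smul, one_smul]
    rw [this]
    exact hf.hom (1 + s) x (by linarith)
  exact h3.unique h4

/-- decomposition of a quaternion -/
theorem decomp (a : HH) : a = (a.re) • (1 : HH) + (a.imI • qe 0 + a.imJ • qe 1 + a.imK • qe 2) := by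
  have e0 : QuaternionAlgebra.re (1 : HH) = 1 := rfl
  have e1 : QuaternionAlgebra.imI (1 : HH) = 0 := rfl
  have e2 : QuaternionAlgebra.imJ (1 : HH) = 0 := rfl
  have e3 : QuaternionAlgebra.imK (1 : HH) = 0 := rfl
  ext <;> simp [qe, e0, e1, e2, e3]

/-- the derivative in the direction `x * a` -/
theorem fderiv_dir {f : HH → ℝ} (hf : Sm f) {x : HH} (hx : x ≠ 0) (a : HH) :
    fderiv ℝ f x (x * a) = a.imI * E 0 f x + a.imJ * E 1 f x + a.imK * E 2 f x := by
  have h := euler hf hx
  conv_lhs => rw [decomp a]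
  simp only [mul_add, mul_smul_comm, map_add, map_smul, mul_one, h, smul_eq_mul, mul_zero,
    zero_add, E]

theorem goal_C7 : Goal_C7 := by
  refine ⟨?_, ?_⟩
  · intro f c w t hf hc hw
    have hx : c t ≠ 0 := by
      intro h
      rw [h, norm_zero] at hc
      exact zero_ne_one hc
    have h1 : HasFDerivAt f (fderiv ℝ f (c t)) (c t) := (sm_differentiableAt hf hx).hasFDerivAt
    have h2 : HasDerivAt (fun s => f (c s)) (fderiv ℝ f (c t) w) t := h1.comp_hasDerivAt t hw
    have hcc : c t * star (c t) = 1 := by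
      rw [Quaternion.self_mul_star, Quaternion.normSq_eq_norm_mul_self, hc]
      simp
    have hw2 : c t * (star (c t) * w) = w := by rw [← mul_assoc, hcc, one_mul]
    have h3 := fderiv_dir hf hx (star (c t) * w)
    rw [hw2] at h3
    rw [h3] at h2
    rw [Fin.sum_univ_three]
    exact h2
  · intro f x v hf hx hv
    have h1 : HasFDerivAt f (fderiv ℝ f x) x := (sm_differentiableAt hf hx).hasFDerivAt
    have h2 : HasDerivAt (fun s : ℝ => NormedSpace.exp (s • v)) v 0 := by
      have := hasDerivAt_exp_smul_const v (0 : ℝ)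
      simpa using this
    have h3 : HasDerivAt (fun s : ℝ => x * NormedSpace.exp (s • v)) (x * v) 0 := h2.const_mul x
    have h1' : HasFDerivAt f (fderiv ℝ f x) (x * NormedSpace.exp ((0 : ℝ) • v)) := by
      simpa using h1
    have h4 := h1'.comp_hasDerivAt 0 h3
    rw [fderiv_dir hf hx v] at h4
    exact h4

end Pool.Agent.Helper97.RF
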