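import Pool.Agent.Helper73.RF.GoalsF

/-! # Packet FIN (MP_c98eff_gt): assembly of the theorem. -/

set_option autoImplicit false

open Finset Pool.Agent.Helper47.RF Pool.Agent.Helper73.RF Filter Topology

namespace Pool.Agent.Helper97.RF

/-! ### congruence off the origin -/

theorem E_congr {f f' : HH → ℝ} (h : ∀ x, x ≠ 0 → f x = f' x) (i : Fin 3) {x : HH}
    (hx : x ≠ 0) : E i f x = E i f' x := by
  have h1 : f =ᶠ[𝓝 x] f' := by
    filter_upwards [isOpen_compl_singleton.mem_nhds hx] with y hy using h y hy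
  unfold E
  rw [h1.fderiv_eq]

theorem GamL_congr {g g' : MF} (h : ∀ x, x ≠ 0 → g x = g' x) (i j k : Fin 3) {x : HH}
    (hx : x ≠ 0) : GamL g i j k x = GamL g' i j k x := by
  have e : ∀ a b c, E a (fun y => g y b c) x = E a (fun y => g' y b c) x :=
    fun a b c => E_congr (fun y hy => by rw [h y hy]) a hx
  simp only [GamL, e, h x hx]

theorem Gam_congr {g g' : MF} (h : ∀ x, x ≠ 0 → g x = g' x) (i j k : Fin 3) {x : HH}
    (hx : x ≠ 0) : Gam g i j k x = Gam g' i j k x := by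
  simp only [Gam, h x hx, GamL_congr h _ _ _ hx]

theorem Rup_congr {g g' : MF} (h : ∀ x, x ≠ 0 → g x = g' x) (i j k l : Fin 3) {x : HH}
    (hx : x ≠ 0) : Rup g i j k l x = Rup g' i j k l x := by
  have e : ∀ a b c d, E a (Gam g b c d) x = E a (Gam g' b c d) x :=
    fun a b c d => E_congr (fun y hy => Gam_congr h b c d hy) a hx
  simp only [Rup, e, Gam_congr h _ _ _ hx]

theorem Rm_congr {g g' : MF} (h : ∀ x, x ≠ 0 → g x = g' x) (i j k l : Fin 3) {x : HH}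
    (hx : x ≠ 0) : Rm g i j k l x = Rm g' i j k l x := by
  simp only [Rm, h x hx, Rup_congr h _ _ _ _ hx]

theorem gOf_congr {θ θ' : MF} (h : ∀ x, x ≠ 0 → θ x = θ' x) : ∀ x, x ≠ 0 → gOf θ x = gOf θ' x := by
  intro x hx
  simp only [gOf, h x hx]

theorem Nc_congr {A θ A' θ' : MF} (hA : ∀ x, x ≠ 0 → A x = A' x) (ht : ∀ x, x ≠ 0 → θ x = θ' x)
    {x : HH} (hx : x ≠ 0) : Nc A θ x = Nc A' θ' x := by
  funext l k
  simp only [Nc, Rm_congr (gOf_congr ht) _ _ _ _ hx, hA x hx]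

theorem sC_congr {A θ A' θ' : MF} (hA : ∀ x, x ≠ 0 → A x = A' x) (ht : ∀ x, x ≠ 0 → θ x = θ' x)
    {x : HH} (hx : x ≠ 0) : sC A θ x = sC A' θ' x := by
  simp only [sC, Nc_congr hA ht hx]

theorem PinC_congr {κ : ℝ} {A θ A' θ' : MF} (hA : ∀ x, x ≠ 0 → A x = A' x)
    (ht : ∀ x, x ≠ 0 → θ x = θ' x) {x : HH} (hx : x ≠ 0) (h : PinC κ A' θ' x) : PinC κ A θ x := by
  intro n hn
  rw [sC_congr hA ht hx, Nc_congr hA ht hx]
  exact h n hn

theorem glen_congr {g g' : MF} (h : ∀ x, x ≠ 0 → g x = g' x) {c : ℝ → HH} (hc : ∀ t, ‖c t‖ = 1) :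
    glen g c = glen g' c := by
  have hne : ∀ t, c t ≠ 0 := by
    intro t h0
    have := hc t
    rw [h0, norm_zero] at this
    exact zero_ne_one this
  simp only [glen, speed, ip, h _ (hne _)]

theorem gdist_congr {g g' : MF} (h : ∀ x, x ≠ 0 → g x = g' x) (x y : HH) :
    gdist g x y = gdist g' x y := by
  unfold gdist
  congr 1
  ext r
  constructor
  · rintro ⟨c, hc, hr⟩
    exact ⟨c, hc, by rw [hr, glen_congr h hc.2.1]⟩
  · rintro ⟨c, hc, hr⟩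
    exact ⟨c, hc, by rw [hr, glen_congr h hc.2.1]⟩

theorem gdiam_congr {g g' : MF} (h : ∀ x, x ≠ 0 → g x = g' x) : gdiam g = gdiam g' := by
  simp only [gdiam, gdist_congr h]

theorem gvol_congr {g g' : MF} (h : ∀ x, x ≠ 0 → g x = g' x) : gvol g = gvol g' := by
  unfold gvol
  congr 1
  refine MeasureTheory.setIntegral_congr_ae Metric.isOpen_ball.measurableSet ?_
  have h0 : ∀ᵐ x : HH, x ≠ 0 := by
    have : ({0}ᶜ : Set HH) ∈ MeasureTheory.ae MeasureTheory.volume :=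
      MeasureTheory.compl_mem_ae_iff.2 (MeasureTheory.measure_singleton 0)
    exact this
  filter_upwards [h0] with x hx _
  rw [h x hx]

theorem eps_eq (i j k : Fin 3) : Pool.Agent.Helper73.RF.eps i j k = Pool.Agent.Helper47.RF.eps i j k := by
  fin_cases i <;> fin_cases j <;> fin_cases k <;>
    norm_num [Pool.Agent.Helper73.RF.eps, Pool.Agent.Helper47.RF.eps]

/-! ### consequences of pinching -/

theorem Nc_abs_le {A θ : MF} {κ : ℝ} {x : HH} (hκ : 0 < κ)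
    (hsy : ∀ l k, Nc A θ x l k = Nc A θ x k l) (hs : 0 < sC A θ x) (hp : PinC κ A θ x) :
    ∀ i j, |Nc A θ x i j| ≤ sC A θ x := by
  have hκs : 0 < κ * sC A θ x := mul_pos hκ hs
  have key : ∀ n : Fin 3 → ℝ, ∑ i, n i ^ 2 = 1 → 0 ≤ ∑ i, ∑ j, n i * n j * Nc A θ x i j :=
    fun n hn => hκs.le.trans (hp n hn)
  have hsd : sC A θ x = Nc A θ x 0 0 + Nc A θ x 1 1 + Nc A θ x 2 2 := by
    simp [sC, Fin.sum_univ_three]
  obtain ⟨r, hr⟩ : ∃ r : ℝ, r * r = 1 / 2 := ⟨Real.sqrt (1 / 2), Real.mul_self_sqrt (by norm_num)⟩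
  have hr2 : r ^ 2 = 1 / 2 := by rw [pow_two]; exact hr
  have k0 := key ![1, 0, 0] (by simp [Fin.sum_univ_three])
  have k1 := key ![0, 1, 0] (by simp [Fin.sum_univ_three])
  have k2 := key ![0, 0, 1] (by simp [Fin.sum_univ_three])
  have k3 := key ![r, r, 0] (by simp [Fin.sum_univ_three, hr2]; norm_num)
  have k4 := key ![r, -r, 0] (by simp [Fin.sum_univ_three, hr2]; norm_num)
  have k5 := key ![r, 0, r] (by simp [Fin.sum_univ_three, hr2]; norm_num)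
  have k6 := key ![r, 0, -r] (by simp [Fin.sum_univ_three, hr2]; norm_num)
  have k7 := key ![0, r, r] (by simp [Fin.sum_univ_three, hr2]; norm_num)
  have k8 := key ![0, r, -r] (by simp [Fin.sum_univ_three, hr2]; norm_num)
  simp [Fin.sum_univ_three, hr] at k0 k1 k2 k3 k4 k5 k6 k7 k8
  have s01 := hsy 0 1
  have s02 := hsy 0 2
  have s12 := hsy 1 2
  intro i j
  rw [abs_le, hsd]
  fin_cases i <;> fin_cases j <;> simp <;> constructor <;> linarith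

theorem frm_of_flow {I : Set ℝ} {A θ : ℝ → MF} (hf : FFlow I A θ) {t : ℝ} (ht : t ∈ I) :
    Frm (A t) (θ t) :=
  ⟨hf.inv t ht, fun a i => (hf.flA a i).fam.sm t ht, fun i a => (hf.flt i a).fam.sm t ht⟩

theorem Nc_smul (hFrn : FrnStmt) {A θ : MF} (hF : Frm A θ) {r : ℝ} (hr : 0 < r) (x : HH) :
    Nc A θ (r • x) = Nc A θ x := by
  obtain ⟨-, -, hSm, -⟩ := hFrn A θ hF
  funext l k
  exact (hSm l k).hom r x hr

theorem sC_smul (hFrn : FrnStmt) {A θ : MF} (hF : Frm A θ) {r : ℝ} (hr : 0 < r) (x : HH) :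
    sC A θ (r • x) = sC A θ x := by
  simp only [sC, Nc_smul hFrn hF hr]

theorem unit_of {x : HH} (hx : x ≠ 0) : 0 < ‖x‖⁻¹ ∧ ‖‖x‖⁻¹ • x‖ = 1 := by
  have h1 : 0 < ‖x‖ := norm_pos_iff.2 hx
  refine ⟨inv_pos.2 h1, ?_⟩
  rw [norm_smul, norm_inv, norm_norm, inv_mul_cancel₀ h1.ne']

theorem exists_s0 (hFrn : FrnStmt) {A θ : MF} (hF : Frm A θ)
    (hpos : ∀ x, x ≠ 0 → 0 < sC A θ x) : ∃ s0 : ℝ, 0 < s0 ∧ ∀ x, x ≠ 0 → s0 ≤ sC A θ x := by
  obtain ⟨-, -, hSm, -⟩ := hFrn A θ hF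
  have hK : IsCompact (Metric.sphere (0 : HH) 1) := isCompact_sphere 0 1
  have hne : (Metric.sphere (0 : HH) 1).Nonempty := ⟨1, by simp⟩
  have hcont : ContinuousOn (fun x => sC A θ x) (Metric.sphere (0 : HH) 1) := by
    have hsub : Metric.sphere (0 : HH) 1 ⊆ {0}ᶜ := by
      intro x hx h0
      rw [Set.mem_singleton_iff.1 h0] at hx
      simp at hx
    unfold sC
    exact continuousOn_finsetSum _ fun i _ => ((hSm i i).cd.continuousOn).mono hsub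
  obtain ⟨p, hp, hmin⟩ := hK.exists_isMinOn hne hcont
  have hp0 : p ≠ 0 := by
    rintro rfl
    simp at hp
  refine ⟨sC A θ p, hpos p hp0, fun x hx => ?_⟩
  obtain ⟨h1, h2⟩ := unit_of hx
  have h3 := hmin (show ‖x‖⁻¹ • x ∈ Metric.sphere (0 : HH) 1 by simpa using h2)
  simp only [Set.mem_ofPred_eq] at h3
  rw [sC_smul hFrn hF h1] at h3
  exact h3

/-- `s` is half the trace of the Ricci form -/
theorem sC_eq (hFrn : FrnStmt) {A θ : MF} (hF : Frm A θ) {x : HH} (hx : x ≠ 0) :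
    sC A θ x = 1 / 2 * ∑ a, ∑ i, (∑ b, RicF A θ x a b * A x b i) * θ x i a := by
  obtain ⟨-, -, -, -, -, hRic, -⟩ := hFrn A θ hF
  have h1 : ∀ a c, ∑ i, (∑ b, RicF A θ x a b * A x b i) * θ x i c = RicF A θ x a c := by
    intro a c
    have h2 : ∀ b, ∑ i, A x b i * θ x i c = if b = c then 1 else 0 := by
      intro b
      have h3 := congrFun (congrFun (hF.inv x) b) c
      rw [Matrix.mul_apply, Matrix.one_apply] at h3
      exact h3
    calc ∑ i, (∑ b, RicF A θ x a b * A x b i) * θ x i c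
        = ∑ i, ∑ b, RicF A θ x a b * (A x b i * θ x i c) := by
          refine Finset.sum_congr rfl fun i _ => ?_
          rw [Finset.sum_mul]
          exact Finset.sum_congr rfl fun b _ => by ring
      _ = ∑ b, ∑ i, RicF A θ x a b * (A x b i * θ x i c) := Finset.sum_comm
      _ = ∑ b, RicF A θ x a b * (if b = c then 1 else 0) := by
          refine Finset.sum_congr rfl fun b _ => ?_
          rw [← Finset.mul_sum, h2 b]
      _ = RicF A θ x a c := by simp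
  simp only [h1]
  simp only [hRic x hx, if_true]
  have hsd : sC A θ x = ∑ i, Nc A θ x i i := rfl
  rw [Finset.sum_sub_distrib, ← hsd]
  simp
  ring

theorem sC_bdd (hFrn : FrnStmt) {T : ℝ} {A θ : ℝ → MF} (hf : FFlow (Set.Ico 0 T) A θ) {t2 : ℝ}
    (h2 : t2 < T) : ∃ B : ℝ, ∀ t, 0 ≤ t → t ≤ t2 → ∀ x, x ≠ 0 → sC (A t) (θ t) x ≤ B := by
  let F : ℝ × HH → ℝ := fun p =>
    1 / 2 * ∑ a, ∑ i, (∑ b, RicF (A p.1) (θ p.1) p.2 a b * A p.1 p.2 b i) * θ p.1 p.2 i a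
  have hF : ContinuousOn F (Set.Ico 0 T ×ˢ {0}ᶜ) := by
    refine continuousOn_const.mul (continuousOn_finsetSum _ fun a _ =>
      continuousOn_finsetSum _ fun i _ => ContinuousOn.mul ?_ ?_)
    · exact (hf.flA a i).fam'.cont []
    · exact (hf.flt i a).fam.cont []
  have hK : IsCompact (Set.Icc (0 : ℝ) t2 ×ˢ Metric.sphere (0 : HH) 1) :=
    isCompact_Icc.prod (isCompact_sphere 0 1)
  have hsub : Set.Icc (0 : ℝ) t2 ×ˢ Metric.sphere (0 : HH) 1 ⊆ Set.Ico 0 T ×ˢ {0}ᶜ := by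
    rintro ⟨t, x⟩ ⟨ht, hx⟩
    refine ⟨⟨ht.1, lt_of_le_of_lt ht.2 h2⟩, ?_⟩
    intro h0
    have hx0 : x = 0 := h0
    rw [hx0] at hx
    simp at hx
  obtain ⟨B, hB⟩ := hK.exists_bound_of_continuousOn (hF.mono hsub)
  refine ⟨B, fun t ht0 ht2 x hx => ?_⟩
  have hFr := frm_of_flow hf (t := t) ⟨ht0, lt_of_le_of_lt ht2 h2⟩
  obtain ⟨h3, h4⟩ := unit_of hx
  have h5 := hB (t, ‖x‖⁻¹ • x) ⟨⟨ht0, ht2⟩, by simpa using h4⟩
  have hne : ‖x‖⁻¹ • x ≠ 0 := by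
    intro h0
    rw [h0, norm_zero] at h4
    exact zero_ne_one h4
  have h6 : F (t, ‖x‖⁻¹ • x) = sC (A t) (θ t) x := by
    rw [← sC_smul hFrn hFr h3 x, sC_eq hFrn hFr hne]
  rw [h6, Real.norm_eq_abs] at h5
  exact (le_abs_self _).trans h5

theorem fin : FinStmt := by
  intro hLoc hHeat hCon hMx hOL hVlb hDia hCho hFrn hPin
  obtain ⟨hExc, hExd, hGlu, hMax⟩ := hMx
  obtain ⟨hOne, hLp⟩ := hOL
  intro δ hδ
  obtain ⟨κ, hκd⟩ : ∃ κ : ℝ, κ = δ / (δ + 2) := ⟨_, rfl⟩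
  have hκ : 0 < κ := by rw [hκd]; positivity
  obtain ⟨A1, hA1d⟩ : ∃ A1 : ℝ, A1 = (100000 : ℝ) ^ (2 / (3 * κ ^ 2)) := ⟨_, rfl⟩
  have hA1 : 0 < A1 := by rw [hA1d]; positivity
  obtain ⟨C', hC'd⟩ : ∃ C' : ℝ, C' = 11 + 4 * Real.sqrt (2 + 5 * (2 * A1)) := ⟨_, rfl⟩
  have hC' : 0 < C' := by
    rw [hC'd]
    have := Real.sqrt_nonneg (2 + 5 * (2 * A1))
    linarith
  obtain ⟨v0, hv0d⟩ : ∃ v0 : ℝ,
      v0 = (MeasureTheory.volume (Metric.ball (0 : HH) 1)).toReal := ⟨_, rfl⟩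
  have hv0 : 0 < v0 := by
    rw [hv0d]
    exact ENNReal.toReal_pos (Metric.measure_ball_pos _ _ one_pos).ne' MeasureTheory.measure_ball_lt_top.ne
  obtain ⟨ex, hexd⟩ : ∃ ex : ℝ, ex = Real.exp (-(4400 / (3 * κ ^ 2))) := ⟨_, rfl⟩
  have hex : 0 < ex := by rw [hexd]; exact Real.exp_pos _
  have hsA : 0 < Real.sqrt A1 := Real.sqrt_pos.2 hA1
  refine ⟨ex * v0 / (A1 * Real.sqrt A1 * C' ^ 3), by positivity, ?_⟩
  intro g hg hpin
  obtain ⟨A0, θ0, hF0, hgO⟩ := hCho g hg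
  have hgO' : gOf θ0 = g := funext hgO
  -- curvature of the initial metric
  obtain ⟨-, -, -, hsy0, hcu0, -, hor0, -⟩ := hFrn A0 θ0 hF0
  rw [hgO'] at hcu0 hor0
  have hPin0 : ∀ x, x ≠ 0 → 0 < sC A0 θ0 x ∧ PinC κ A0 θ0 x := by
    intro x hx
    have hFrN : Pool.Agent.Helper64.RF.FrN g x (A0 x) (Nc A0 θ0 x) := by
      refine ⟨hor0 x, hsy0 x hx, ?_⟩
      have h := hcu0 x hx
      simp only [eps_eq] at h
      exact h
    obtain ⟨h1, h2⟩ := hPin g hg x δ hδ (hpin x hx) (A0 x) (Nc A0 θ0 x) hFrN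
    have htr : (Matrix.trace (Nc A0 θ0 x)) = sC A0 θ0 x := rfl
    rw [htr] at h1 h2
    refine ⟨h1, fun n hn => ?_⟩
    have h3 := h2 n
    rw [hn, mul_one, ← hκd] at h3
    refine h3.trans (le_of_eq ?_)
    exact Finset.sum_congr rfl fun i _ => Finset.sum_congr rfl fun j _ => by ring
  obtain ⟨s0, hs0, hs0'⟩ := exists_s0 hFrn hF0 (fun x hx => (hPin0 x hx).1)
  -- every flow is good
  have hGoodAll : ∀ (T : ℝ) (A θ : ℝ → MF), 0 < T → FFlow (Set.Ico 0 T) A θ →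
      (∀ x, x ≠ 0 → A 0 x = A0 x ∧ θ 0 x = θ0 x) → Good T κ s0 A θ := by
    intro T A θ hT hf hin
    refine hCon T κ s0 A θ hT hκ hs0 hf fun x hx => ⟨?_, ?_⟩
    · rw [sC_congr (fun y hy => (hin y hy).1) (fun y hy => (hin y hy).2) hx]
      exact hs0' x hx
    · exact PinC_congr (fun y hy => (hin y hy).1) (fun y hy => (hin y hy).2) hx (hPin0 x hx).2
  have hTb : ∀ (T : ℝ) (A θ : ℝ → MF), 0 < T → FFlow (Set.Ico 0 T) A θ →
      (∀ x, x ≠ 0 → A 0 x = A0 x ∧ θ 0 x = θ0 x) → T ≤ 3 / (4 * s0) := by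
    intro T A θ hT hf hin
    by_contra hlt
    push Not at hlt
    have hG := hGoodAll T A θ hT hf hin
    have hb : 0 < 3 / (4 * s0) := by positivity
    obtain ⟨t1, ht1⟩ : ∃ t1 : ℝ, t1 = (T - 3 / (4 * s0)) / 2 := ⟨_, rfl⟩
    have h1 : 0 < t1 := by rw [ht1]; linarith
    have h2 : t1 < T := by rw [ht1]; linarith
    have h3 := (hG.s2 t1 s0 h1 h2 hs0 (fun x hx => (hG.p1 t1 h1.le h2 x hx).1)).2
    have h4 : 3 / (4 * s0) < T - t1 := by rw [ht1]; linarith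
    have h5 : 0 < T - t1 := by linarith
    rw [le_div_iff₀ (by positivity)] at h3
    rw [div_lt_iff₀ (by positivity)] at h4
    nlinarith
  obtain ⟨T, A, θ, hT, hf, hin, hunb⟩ := hMax hLoc hExc hExd hGlu A0 θ0 (3 / (4 * s0)) hF0 hTb
  have hG := hGoodAll T A θ hT hf hin
  have hsp : ∀ t, 0 ≤ t → t < T → ∀ x, x ≠ 0 → 0 < sC (A t) (θ t) x := fun t h0 h1 x hx =>
    lt_of_lt_of_le hs0 (hG.p1 t h0 h1 x hx).1
  have hNle : ∀ t, 0 ≤ t → t < T → ∀ x, x ≠ 0 → ∀ i j,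
      |Nc (A t) (θ t) x i j| ≤ sC (A t) (θ t) x := by
    intro t h0 h1 x hx
    have hFr := frm_of_flow hf (t := t) ⟨h0, h1⟩
    obtain ⟨-, -, -, hsy, -⟩ := hFrn _ _ hFr
    exact Nc_abs_le hκ (hsy x hx) (hsp t h0 h1 x hx) (hG.p1 t h0 h1 x hx).2
  have hunb' : ∀ C t2 : ℝ, t2 < T →
      ∃ t x, 0 < t ∧ t2 < t ∧ t < T ∧ x ≠ 0 ∧ C < sC (A t) (θ t) x := by
    intro C t2 ht2
    obtain ⟨B, hB⟩ := sC_bdd hFrn hf (t2 := max t2 0) (max_lt ht2 hT)
    obtain ⟨t, x, h0, h1, hx, i, j, hK⟩ := hunb (max B C)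
    have h2 : max B C < sC (A t) (θ t) x := hK.trans_le (hNle t h0 h1 x hx i j)
    have h3 : max t2 0 < t := by
      by_contra h4
      push Not at h4
      have := hB t h0 h4 x hx
      exact absurd (lt_of_le_of_lt (le_max_left B C) h2) (not_lt.2 this)
    exact ⟨t, x, lt_of_le_of_lt (le_max_right _ _) h3, lt_of_le_of_lt (le_max_left _ _) h3, h1, hx,
      lt_of_le_of_lt (le_max_right B C) h2⟩
  obtain ⟨τ, hL⟩ := hLp hOne T κ s0 A θ hT hκ hs0 hf hG hunb'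
  have hbef : ∀ t, 0 < t → t ≤ τ → ∀ x, x ≠ 0 → t * sC (A t) (θ t) x ≤ 2 * A1 := by
    intro t h0 h1 x hx
    rw [hA1d]
    exact hL.bef t h0 h1 x hx
  have hdia := hDia hHeat T κ (2 * A1) τ A θ hκ hL.pos.1 hL.pos.2 hf
    (fun t h0 h1 x hx => ⟨(hG.p1 t h0 h1 x hx).2, (hsp t h0 h1 x hx).le⟩) hbef hL.dis
  have hvol := hVlb T κ τ A θ hκ hf hL (fun t h0 h1 x hx => (hsp t h0 h1 x hx).le)
  have hg0 : ∀ x, x ≠ 0 → gOf (θ 0) x = g x := by
    intro x hx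
    rw [← hgO']
    simp only [gOf, (hin x hx).2]
  rw [gdiam_congr hg0, ← hC'd] at hdia
  rw [gvol_congr hg0, ← hexd, ← hv0d] at hvol
  -- final computation
  have hτ : 0 < τ := hL.pos.1
  have hlen := hL.len.1
  rw [← hA1d] at hlen
  have hw : τ / A1 ≤ 4 * (T - τ) := by
    rw [div_le_iff₀ hA1]
    rw [div_le_iff₀ (by positivity)] at hlen
    linarith
  have hw0 : 0 < τ / A1 := by positivity
  have hsq : Real.sqrt (τ / A1) ≤ Real.sqrt (4 * (T - τ)) := Real.sqrt_le_sqrt hw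
  have hsq0 : 0 ≤ Real.sqrt (τ / A1) := Real.sqrt_nonneg _
  have h1 : τ / A1 * Real.sqrt (τ / A1) ≤ 4 * (T - τ) * Real.sqrt (4 * (T - τ)) :=
    mul_le_mul hw hsq hsq0 (by linarith)
  have hsτ : 0 < Real.sqrt τ := Real.sqrt_pos.2 hτ
  have hcube : gdiam g ^ 3 ≤ (C' * Real.sqrt τ) ^ 3 := by
    have hodd : Odd 3 := by decide
    exact (hodd.strictMono_pow (R := ℝ)).monotone hdia
  have hsdiv : Real.sqrt (τ / A1) = Real.sqrt τ / Real.sqrt A1 := Real.sqrt_div hτ.le A1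
  have hs3 : Real.sqrt τ ^ 3 = τ * Real.sqrt τ := by
    have : Real.sqrt τ ^ 2 = τ := Real.sq_sqrt hτ.le
    calc Real.sqrt τ ^ 3 = Real.sqrt τ ^ 2 * Real.sqrt τ := by ring
      _ = τ * Real.sqrt τ := by rw [this]
  calc ex * v0 / (A1 * Real.sqrt A1 * C' ^ 3) * gdiam g ^ 3
      ≤ ex * v0 / (A1 * Real.sqrt A1 * C' ^ 3) * (C' * Real.sqrt τ) ^ 3 :=
        mul_le_mul_of_nonneg_left hcube (by positivity)
    _ = τ / A1 * Real.sqrt (τ / A1) * ex * v0 := by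
        rw [mul_pow, hs3, hsdiv]
        field_simp
    _ ≤ 4 * (T - τ) * Real.sqrt (4 * (T - τ)) * ex * v0 := by
        have := mul_le_mul_of_nonneg_right (mul_le_mul_of_nonneg_right h1 hex.le) hv0.le
        exact this
    _ ≤ gvol g := hvol

end Pool.Agent.Helper97.RF
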