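import Pool.Agent.Helper64.RF.GoalsD
import Pool.Agent.Helper97.RF.LODEcore

/-! # Packet LODE (MP_c98eff_gt): global solutions of linear differential equations. -/

namespace Pool.Agent.Helper97.RF

open Pool.Agent.Helper64.RF

theorem lode : LODE := by
  intro E _ _ _ A hA y0
  exact lode_global A hA y0

end Pool.Agent.Helper97.RF
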